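import Mathlib

set_option autoImplicit false

/-!
# Project GP: bookkeeping for the number of all pairs
-/

open Finset

namespace Pool.Agent.H670.GP

open Classical in
theorem comb {α : Type} (Z S : Finset α) (o : α → ℝ) (E PR : α → Prop) (W : α → α → Prop)
    (M b1 b2 : ℝ) (ho : ∀ w, 0 ≤ o w) (h1 : ∀ w ∈ Z, E w → o w = 1) (h1' : ∀ z ∈ S, E z → o z = 1)
    (h2 : ∀ z ∈ S, 1 ≤ o z)
    (hA : ∀ w ∈ Z, E w → ∀ z ∈ S, ∀ z' ∈ S, E z → E z' → W w z → W w z' → z = z')
    (hB : ∀ z ∈ S, ∀ w ∈ Z, ∀ w' ∈ Z, E w → E w' → W w z → W w' z → w = w')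
    (hP : ∀ w ∈ Z, E w → PR w → ∃ z ∈ S, W w z)
    (hP' : ∀ w ∈ Z, E w → ∀ z ∈ S, E z → W w z → PR w)
    (hM : ∀ w ∈ Z, ∑ z ∈ S.filter (W w), o z ≤ M) (hM0 : 0 ≤ M)
    (hb1 : ∑ w ∈ Z.filter (fun w => ¬ E w), o w ≤ b1)
    (hb2 : ∑ z ∈ S.filter (fun z => ¬ E z ∧ ∃ w ∈ Z, W w z), o z ≤ b2) :
    |∑ w ∈ Z, o w * ∑ z ∈ S.filter (W w), o z - ∑ w ∈ Z.filter PR, o w| ≤ (M + 1) * b1 + b2 := by
  obtain ⟨pc, hpc⟩ : ∃ pc : α → ℝ, ∀ w, pc w = ∑ z ∈ S.filter (W w), o z := ⟨_, fun _ => rfl⟩
  obtain ⟨r, hr⟩ : ∃ r : α → ℝ, ∀ w, r w = ∑ z ∈ S.filter (fun z => W w z ∧ ¬ E z), o z :=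
    ⟨_, fun _ => rfl⟩
  obtain ⟨i, hi⟩ : ∃ i : α → ℝ, ∀ w, i w = if PR w then 1 else 0 := ⟨_, fun _ => rfl⟩
  simp only [← hpc] at hM ⊢
  have hpc0 : ∀ w, 0 ≤ pc w := fun w => by rw [hpc]; exact Finset.sum_nonneg fun z _ => ho z
  have e1 : ∑ w ∈ Z, o w * pc w - ∑ w ∈ Z.filter PR, o w = ∑ w ∈ Z, o w * (pc w - i w) := by
    rw [Finset.sum_filter, ← Finset.sum_sub_distrib]
    apply Finset.sum_congr rfl
    intro w _
    rw [hi]
    split_ifs <;> ring
  have e2 : ∑ w ∈ Z, o w * (pc w - i w) = ∑ w ∈ Z.filter E, o w * (pc w - i w) +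
      ∑ w ∈ Z.filter (fun w => ¬ E w), o w * (pc w - i w) :=
    (Finset.sum_filter_add_sum_filter_not Z E _).symm
  have hkey : ∀ w ∈ Z, E w → 0 ≤ pc w - i w ∧ pc w - i w ≤ r w := by
    intro w hw hE
    have d1 : pc w = ∑ z ∈ (S.filter (W w)).filter E, o z +
        ∑ z ∈ (S.filter (W w)).filter (fun z => ¬ E z), o z := by
      rw [hpc]
      exact (Finset.sum_filter_add_sum_filter_not _ E _).symm
    have d2 : r w = ∑ z ∈ (S.filter (W w)).filter (fun z => ¬ E z), o z := by
      rw [hr, Finset.filter_filter]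
    have d3 : ∑ z ∈ (S.filter (W w)).filter E, o z = (((S.filter (W w)).filter E).card : ℝ) := by
      rw [Finset.card_eq_sum_ones]
      push_cast
      apply Finset.sum_congr rfl
      intro z hz
      simp only [Finset.mem_filter] at hz
      exact h1' z hz.1.1 hz.2
    have d4 : ((S.filter (W w)).filter E).card ≤ 1 := by
      rw [Finset.card_le_one]
      intro z hz z' hz'
      simp only [Finset.mem_filter] at hz hz'
      exact hA w hw hE z hz.1.1 z' hz'.1.1 hz.2 hz'.2 hz.1.2 hz'.1.2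
    have d5 : 0 ≤ r w := by rw [hr]; exact Finset.sum_nonneg fun z _ => ho z
    rw [d1, ← d2, d3]
    by_cases hPR : PR w
    · have hi1 : i w = 1 := by rw [hi, if_pos hPR]
      rw [hi1]
      rcases Nat.eq_zero_or_pos ((S.filter (W w)).filter E).card with hc | hc
      · obtain ⟨z, hz, hWz⟩ := hP w hw hE hPR
        have hnE : ¬ E z := by
          intro hEz
          rw [Finset.card_eq_zero] at hc
          have : z ∈ (S.filter (W w)).filter E := by
            simp only [Finset.mem_filter]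
            exact ⟨⟨hz, hWz⟩, hEz⟩
          rw [hc] at this
          exact absurd this (Finset.notMem_empty z)
        have h3 : o z ≤ r w := by
          rw [hr]
          apply Finset.single_le_sum (f := o) (fun x _ => ho x)
          simp only [Finset.mem_filter]
          exact ⟨hz, hWz, hnE⟩
        have h4 := h2 z hz
        rw [hc]
        push_cast
        constructor <;> linarith
      · have : ((S.filter (W w)).filter E).card = 1 := le_antisymm d4 hc
        rw [this]
        push_cast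
        constructor <;> linarith
    · have hi1 : i w = 0 := by rw [hi, if_neg hPR]
      have hc : ((S.filter (W w)).filter E).card = 0 := by
        rw [Finset.card_eq_zero, Finset.eq_empty_iff_forall_notMem]
        intro z hz
        simp only [Finset.mem_filter] at hz
        exact hPR (hP' w hw hE z hz.1.1 hz.2 hz.1.2)
      rw [hi1, hc]
      push_cast
      constructor <;> linarith
  have hsum1 : ∑ w ∈ Z.filter E, o w * (pc w - i w) = ∑ w ∈ Z.filter E, (pc w - i w) := by
    apply Finset.sum_congr rfl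
    intro w hw
    rw [Finset.mem_filter] at hw
    rw [h1 w hw.1 hw.2, one_mul]
  have hr' : ∑ w ∈ Z.filter E, r w ≤ b2 := by
    calc ∑ w ∈ Z.filter E, r w
        = ∑ w ∈ Z.filter E, ∑ z ∈ S, (if W w z ∧ ¬ E z then o z else 0) := by
          apply Finset.sum_congr rfl
          intro w _
          rw [hr, Finset.sum_filter]
      _ = ∑ z ∈ S, ∑ w ∈ Z.filter E, (if W w z ∧ ¬ E z then o z else 0) := Finset.sum_comm
      _ ≤ ∑ z ∈ S, (if ¬ E z ∧ ∃ w ∈ Z, W w z then o z else 0) := by
          apply Finset.sum_le_sum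
          intro z hz
          rw [← Finset.sum_filter, Finset.sum_const, nsmul_eq_mul]
          have hcard : (((Z.filter E).filter (fun w => W w z ∧ ¬ E z)).card : ℝ) ≤ 1 := by
            have : ((Z.filter E).filter (fun w => W w z ∧ ¬ E z)).card ≤ 1 := by
              rw [Finset.card_le_one]
              intro w hw w' hw'
              simp only [Finset.mem_filter] at hw hw'
              exact hB z hz w hw.1.1 w' hw'.1.1 hw.1.2 hw'.1.2 hw.2.1 hw'.2.1
            exact_mod_cast this
          by_cases h : ¬ E z ∧ ∃ w ∈ Z, W w z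
          · rw [if_pos h]
            exact mul_le_of_le_one_left (ho z) hcard
          · rw [if_neg h]
            have : (Z.filter E).filter (fun w => W w z ∧ ¬ E z) = ∅ := by
              rw [Finset.eq_empty_iff_forall_notMem]
              intro w hw
              simp only [Finset.mem_filter] at hw
              exact h ⟨hw.2.2, w, hw.1.1, hw.2.1⟩
            rw [this, Finset.card_empty, Nat.cast_zero, zero_mul]
      _ ≤ b2 := by
          rw [← Finset.sum_filter]
          exact hb2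
  have hA1 : 0 ≤ ∑ w ∈ Z.filter E, (pc w - i w) := by
    apply Finset.sum_nonneg
    intro w hw
    rw [Finset.mem_filter] at hw
    exact (hkey w hw.1 hw.2).1
  have hA2 : ∑ w ∈ Z.filter E, (pc w - i w) ≤ b2 := by
    refine le_trans (Finset.sum_le_sum fun w hw => ?_) hr'
    rw [Finset.mem_filter] at hw
    exact (hkey w hw.1 hw.2).2
  have hC : |∑ w ∈ Z.filter (fun w => ¬ E w), o w * (pc w - i w)| ≤ (M + 1) * b1 := by
    calc |∑ w ∈ Z.filter (fun w => ¬ E w), o w * (pc w - i w)|
        ≤ ∑ w ∈ Z.filter (fun w => ¬ E w), |o w * (pc w - i w)| := Finset.abs_sum_le_sum_abs _ _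
      _ ≤ ∑ w ∈ Z.filter (fun w => ¬ E w), (M + 1) * o w := by
          apply Finset.sum_le_sum
          intro w hw
          rw [Finset.mem_filter] at hw
          have hi0 : 0 ≤ i w ∧ i w ≤ 1 := by
            rw [hi]
            split_ifs <;> norm_num
          have h3 := hM w hw.1
          have h4 := hpc0 w
          have h5 : |pc w - i w| ≤ M + 1 := by
            rw [abs_le]
            constructor <;> linarith [hi0.1, hi0.2]
          rw [abs_mul, abs_of_nonneg (ho w), mul_comm]
          exact mul_le_mul_of_nonneg_right h5 (ho w)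
      _ = (M + 1) * ∑ w ∈ Z.filter (fun w => ¬ E w), o w := by rw [Finset.mul_sum]
      _ ≤ (M + 1) * b1 := mul_le_mul_of_nonneg_left hb1 (by linarith)
  rw [e1, e2, hsum1]
  calc |∑ w ∈ Z.filter E, (pc w - i w) + ∑ w ∈ Z.filter (fun w => ¬ E w), o w * (pc w - i w)|
      ≤ |∑ w ∈ Z.filter E, (pc w - i w)| +
        |∑ w ∈ Z.filter (fun w => ¬ E w), o w * (pc w - i w)| := abs_add_le _ _
    _ ≤ b2 + (M + 1) * b1 := by
        rw [abs_of_nonneg hA1]
        exact add_le_add hA2 hC
    _ = (M + 1) * b1 + b2 := by ring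

end Pool.Agent.H670.GP
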