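import Pool.Agent.H487.GP.Stm3
import Pool.Agent.H670.GP.Comb

set_option autoImplicit false

/-!
# Project GP: the number of all pairs
-/

open Finset Complex Filter Topology Metric Set MeasureTheory

namespace Pool.Agent.H670.GP

open Pool.Agent.Helper242.KK (FT Ph)
open Pool.Agent.H477.Jen
open Pool.Agent.H477.E
open Pool.Agent.H487.GA
open Pool.Agent.H487.ED (Ev)
open Pool.Agent.H487.GP

theorem cfil_eq (P : ℂ → Prop) [DecidablePred P] (S : Finset ℂ) : cfil P S = S.filter P := by
  ext w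
  rw [mem_cfil, Finset.mem_filter]

theorem memS {k : ℕ} {X : ℝ} {z : ℂ} : z ∈ (ZA_fin k X).toFinset ↔
    iteratedDeriv k (FT Ph) z = 0 ∧ 0 < z.re ∧ z.re ≤ X := by
  rw [Set.Finite.mem_toFinset]
  exact Iff.rfl

/-- the number of zeros in `(2T, 4T]` -/
theorem n2 {CU : ℝ} (hCU : 0 < CU) {k : ℕ} {T : ℝ} (hT : 10 ≤ T) (hkT : 1 + (k : ℝ) ≤ T)
    (hU : ∀ t : ℝ, T ≤ t → ∀ S : Finset ℂ,
      (∀ w ∈ S, iteratedDeriv k (FT Ph) w = 0 ∧ ‖w - t‖ ≤ 2) →
        ∑ w ∈ S, ordk k w ≤ CU * Real.log t) :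
    ∑ w ∈ ZD k (fun _ => True) (2 * T), ordk k w ≤ 5 * T * (CU * Real.log (4 * T)) := by
  classical
  have hmap : ∀ w ∈ ZD k (fun _ => True) (2 * T), ⌊w.re⌋₊ ∈ Finset.range (⌊4 * T⌋₊ + 1) := by
    intro w hw
    obtain ⟨_, h2, h3, _⟩ := (mem_ZD (by linarith)).1 hw
    rw [Finset.mem_range]
    have : ⌊w.re⌋₊ ≤ ⌊4 * T⌋₊ := Nat.floor_le_floor (by linarith)
    omega
  have hlog : 0 ≤ CU * Real.log (4 * T) :=
    mul_nonneg hCU.le (Real.log_nonneg (show (1:ℝ) ≤ 4 * T by linarith))
  rw [← Finset.sum_fiberwise_of_maps_to hmap]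
  calc _ ≤ ∑ j ∈ Finset.range (⌊4 * T⌋₊ + 1), CU * Real.log (4 * T) := by
        apply Finset.sum_le_sum
        intro j hj
        by_cases hne : ((ZD k (fun _ => True) (2 * T)).filter (fun w => ⌊w.re⌋₊ = j)).Nonempty
        · obtain ⟨w0, hw0⟩ := hne
          rw [Finset.mem_filter] at hw0
          obtain ⟨_, h2, h3, _⟩ := (mem_ZD (by linarith)).1 hw0.1
          have hj1 : 2 * T - 1 ≤ j := by
            have := Nat.lt_floor_add_one w0.re
            rw [hw0.2] at this
            linarith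
          have hj2 : (j : ℝ) ≤ 4 * T := by
            have := Nat.floor_le (show 0 ≤ w0.re by linarith)
            rw [hw0.2] at this
            linarith
          refine (hU j (by linarith) _ ?_).trans ?_
          · intro w hw
            rw [Finset.mem_filter] at hw
            obtain ⟨h0, h4, h5, _⟩ := (mem_ZD (by linarith)).1 hw.1
            refine ⟨h0, ?_⟩
            have a1 := Nat.floor_le (show 0 ≤ w.re by linarith)
            have a2 := Nat.lt_floor_add_one w.re
            rw [hw.2] at a1 a2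
            have a3 := strip_im_one k w h0 (by linarith)
            have a4 := Complex.norm_le_abs_re_add_abs_im (w - ((j : ℝ) : ℂ))
            simp only [Complex.sub_re, Complex.sub_im, Complex.ofReal_re, Complex.ofReal_im,
              sub_zero] at a4
            have a5 : |w.re - j| ≤ 1 := by
              rw [abs_le]
              constructor <;> linarith
            linarith
          · apply mul_le_mul_of_nonneg_left _ hCU.le
            exact Real.log_le_log (by linarith) hj2
        · rw [Finset.not_nonempty_iff_eq_empty] at hne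
          rw [hne, Finset.sum_empty]
          exact hlog
    _ = (⌊4 * T⌋₊ + 1) * (CU * Real.log (4 * T)) := by
        rw [Finset.sum_const, Finset.card_range, nsmul_eq_mul]
        push_cast
        ring
    _ ≤ 5 * T * (CU * Real.log (4 * T)) := by
        apply mul_le_mul_of_nonneg_right _ hlog
        have := Nat.floor_le (show 0 ≤ 4 * T by linarith)
        linarith

/-- two different evenly spaced zeros are not close -/
theorem ev_far {k : ℕ} {w z : ℂ} (hE : Ev (1 / 100) k w) (hw : 1 < w.re)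
    (h0 : iteratedDeriv k (FT Ph) w = 0) (hz : iteratedDeriv k (FT Ph) z = 0) (h : w.re < z.re) :
    99 / 100 * (2 * Real.pi) ≤ (z.re - w.re) * Real.log w.re := by
  obtain ⟨b, h1, h2, h3, h4, h5⟩ := Ev_next hE hw h0
  have hl : 0 < Real.log w.re := Real.log_pos hw
  have h6 := h3 z hz h
  have h7 : (1 - 1 / 100) * (2 * Real.pi / Real.log w.re) ≤ z.re - w.re := by linarith
  have h8 := mul_le_mul_of_nonneg_right h7 hl.le
  have h9 : (1 - 1 / 100) * (2 * Real.pi / Real.log w.re) * Real.log w.re =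
      99 / 100 * (2 * Real.pi) := by
    field_simp
    norm_num
  linarith

theorem pairs_proof : Pool.Agent.H487.ED.S_DYA → Pool.Agent.H477.E.S_UNITU → S_LOWN → S_PAIRS := by
  classical
  intro hD hU hL s1 ε hs1 hε
  obtain ⟨c, CD, TD, hc, hD⟩ := hD (1 / 100) (by norm_num)
  obtain ⟨CU, TU, hCU, hU⟩ := hU
  obtain ⟨k0, δL, TL, hδL, hL⟩ := hL
  obtain ⟨CD', hCD', hCD0⟩ : ∃ CD' : ℝ, CD ≤ CD' ∧ 0 ≤ CD' := ⟨max CD 0, le_max_left _ _, le_max_right _ _⟩
  obtain ⟨X, hXdef⟩ : ∃ X : ℝ, X = 2 * Real.pi * (s1 + 1) := ⟨_, rfl⟩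
  have hpi := Real.pi_pos
  have hpi3 := Real.pi_gt_three
  have hpi4 := Real.pi_le_four
  have hX : 0 < X := by rw [hXdef]; positivity
  have ev : ∀ᶠ T : ℝ in atTop, (TD ≤ T ∧ TU ≤ T ∧ TL ≤ T ∧ 10 ≤ T ∧ X ≤ T ∧ 2 * X ^ 2 ≤ T) ∧
      (10 ≤ Real.log T ∧ (2 * CU + 2) * CD' * (1 + 100 * CU) / ε ≤ Real.log T) ∧
      c / 2 * k0 ≤ Real.log (Real.log T) := by
    have hl := Real.tendsto_log_atTop
    refine (((eventually_ge_atTop TD).and ((eventually_ge_atTop TU).and
      ((eventually_ge_atTop TL).and ((eventually_ge_atTop 10).and ((eventually_ge_atTop X).and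
        (eventually_ge_atTop (2 * X ^ 2))))))).and
      (((hl.eventually_ge_atTop 10).and (hl.eventually_ge_atTop _)).and
        ((hl.comp hl).eventually_ge_atTop _)))
  obtain ⟨T0, hT0⟩ := eventually_atTop.1 ev
  refine ⟨2 / c, min δL (1 / 400), T0, lt_min hδL (by norm_num), ?_⟩
  intro T hT k hk1 hk2 y h hy1 hy2 hh0 hh1
  obtain ⟨⟨hTD, hTU, hTL, hT10, hTX, hTX2⟩, ⟨hL10, hLε⟩, hLk0⟩ := hT0 T hT
  obtain ⟨L, hLdef⟩ : ∃ L : ℝ, L = Real.log T := ⟨_, rfl⟩
  rw [← hLdef] at hL10 hLε hLk0 hk1 hk2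
  have hL0 : 0 < L := by linarith
  have hlogL : 0 ≤ Real.log L := Real.log_nonneg (by linarith)
  have hk400 : 400 * (k : ℝ) ≤ L := by
    have : (k : ℝ) ≤ 1 / 400 * L := hk2.trans (mul_le_mul_of_nonneg_right (min_le_right _ _) hL0.le)
    linarith
  have hkδ : (k : ℝ) ≤ δL * L := hk2.trans (mul_le_mul_of_nonneg_right (min_le_left _ _) hL0.le)
  have hk0' : (0 : ℝ) ≤ k := Nat.cast_nonneg k
  have hLT : L ≤ T - 1 := by rw [hLdef]; exact Real.log_le_sub_one_of_pos (by linarith)
  have hck : 2 * Real.log L ≤ c * k := by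
    have := mul_le_mul_of_nonneg_left hk1 hc.le
    have e : c * (2 / c * Real.log L) = 2 * Real.log L := by field_simp
    linarith
  have hkk0 : k0 ≤ k := by
    have h1 : c / 2 * (k0 : ℝ) ≤ c / 2 * k := by linarith
    have h2 : (k0 : ℝ) ≤ k := le_of_mul_le_mul_left h1 (by positivity)
    exact_mod_cast h2
  have hexp : Real.exp (-c * k) ≤ 1 / L ^ 2 := by
    have h1 : Real.exp (-c * k) ≤ Real.exp (-(2 * Real.log L)) := Real.exp_le_exp.2 (by linarith)
    have h2 : Real.exp (-(2 * Real.log L)) = 1 / L ^ 2 := by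
      rw [Real.exp_neg, two_mul, Real.exp_add, Real.exp_log hL0]
      rw [one_div, pow_two]
    linarith
  have hT2 : Real.log T ≤ Real.log (2 * T) := Real.log_le_log (by linarith) (by linarith)
  -- the number of zeros
  obtain ⟨N, hN⟩ : ∃ N : ℝ, N = ∑ w ∈ ZD k (fun _ => True) T, ordk k w := ⟨_, rfl⟩
  obtain ⟨N2, hN2⟩ : ∃ N2 : ℝ, N2 = ∑ w ∈ ZD k (fun _ => True) (2 * T), ordk k w := ⟨_, rfl⟩
  have hN0 : T * L / 10 ≤ N := by
    rw [hN, hLdef]
    exact hL T hTL k hkk0 (by rw [← hLdef]; exact hkδ)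
  have hNpos : 0 ≤ N := le_trans (by positivity) hN0
  have hU' : ∀ t : ℝ, T ≤ t → ∀ S : Finset ℂ,
      (∀ w ∈ S, iteratedDeriv k (FT Ph) w = 0 ∧ ‖w - t‖ ≤ 2) →
        ∑ w ∈ S, ordk k w ≤ CU * Real.log t := by
    intro t ht S hS
    have h1 : Real.log T ≤ Real.log t := Real.log_le_log (by linarith) ht
    exact hU t (by linarith) k (by linarith) S hS
  have hlog4 : Real.log (4 * T) ≤ 2 * L := by
    have h1 : Real.log (4 * T) = Real.log 4 + Real.log T := Real.log_mul (by norm_num) (by linarith)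
    have h2 : Real.log 4 ≤ 4 - 1 := Real.log_le_sub_one_of_pos (by norm_num)
    rw [h1, ← hLdef]
    linarith
  have hlog3 : Real.log (3 * T) ≤ 3 / 2 * L := by
    have h1 : Real.log (3 * T) = Real.log 3 + Real.log T := Real.log_mul (by norm_num) (by linarith)
    have h2 : Real.log 3 ≤ 3 - 1 := Real.log_le_sub_one_of_pos (by norm_num)
    rw [h1, ← hLdef]
    linarith
  have hN2N : N2 ≤ 100 * CU * N := by
    have h1 := n2 hCU hT10 (by linarith : 1 + (k : ℝ) ≤ T) hU'
    rw [← hN2] at h1
    have h2 : 5 * T * (CU * Real.log (4 * T)) ≤ 5 * T * (CU * (2 * L)) := by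
      apply mul_le_mul_of_nonneg_left _ (by positivity)
      exact mul_le_mul_of_nonneg_left hlog4 hCU.le
    have h3 : 100 * CU * (T * L / 10) ≤ 100 * CU * N := mul_le_mul_of_nonneg_left hN0 (by positivity)
    have h4 : 5 * T * (CU * (2 * L)) = 100 * CU * (T * L / 10) := by ring
    linarith
  have hN2pos : 0 ≤ N2 := by rw [hN2]; exact Finset.sum_nonneg fun w _ => ordk_nonneg k w
  obtain ⟨q, hq⟩ : ∃ q : ℝ, q = CD' * Real.exp (-c * k) := ⟨_, rfl⟩
  have hq0 : 0 ≤ q := by rw [hq]; positivity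
  have hB1 : ∑ w ∈ ZD k (fun w => ¬ Ev (1 / 100) k w) T, ordk k w ≤ q * N := by
    have h1 := hD T hTD k (by rw [← hLdef]; exact hk400)
    rw [cnt_ZD _ _ (by linarith), cnt_ZD _ _ (by linarith), ← hN] at h1
    refine h1.trans (mul_le_mul_of_nonneg_right ?_ hNpos)
    rw [hq]
    exact mul_le_mul_of_nonneg_right hCD' (Real.exp_nonneg _)
  have hB2 : ∑ w ∈ ZD k (fun w => ¬ Ev (1 / 100) k w) (2 * T), ordk k w ≤ q * N2 := by
    have h1 := hD (2 * T) (by linarith) k (by linarith)
    rw [cnt_ZD _ _ (by linarith), cnt_ZD _ _ (by linarith), ← hN2] at h1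
    refine h1.trans (mul_le_mul_of_nonneg_right ?_ hN2pos)
    rw [hq]
    exact mul_le_mul_of_nonneg_right hCD' (Real.exp_nonneg _)
  -- windows
  have hyh : y + h ≤ (s1 + 1) * L := by
    have h1 : s1 * (k : ℝ) ≤ s1 * L := mul_le_mul_of_nonneg_left (by linarith) hs1.le
    linarith [add_mul s1 1 L]
  have hlw : ∀ w : ℂ, T < w.re → L ≤ Real.log w.re := fun w hw => by
    rw [hLdef]
    exact Real.log_le_log (by linarith) hw.le
  have hwin : ∀ w z : ℂ, T < w.re → Wi y h w z →
      y * (2 * Real.pi) ≤ (z.re - w.re) * Real.log w.re ∧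
      (z.re - w.re) * Real.log w.re ≤ (y + h) * (2 * Real.pi) ∧ w.re < z.re ∧ z.re - w.re ≤ X := by
    intro w z hw hW
    have h2 := hlw w hw
    have h3 : y * (2 * Real.pi) ≤ (z.re - w.re) * Real.log w.re :=
      (le_div_iff₀ (by positivity)).1 hW.1
    have h4 : (z.re - w.re) * Real.log w.re ≤ (y + h) * (2 * Real.pi) :=
      (div_le_iff₀ (by positivity)).1 hW.2
    have h5 : 0 < Real.log w.re := by linarith
    have h6 : 0 < z.re - w.re := by
      by_contra hcon
      have h7 : (z.re - w.re) * Real.log w.re ≤ 0 :=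
        mul_nonpos_of_nonpos_of_nonneg (by linarith) h5.le
      have h8 : 0 < y * (2 * Real.pi) := by positivity
      linarith
    refine ⟨h3, h4, by linarith, ?_⟩
    have h7 : (z.re - w.re) * Real.log w.re ≤ X * Real.log w.re := by
      calc (z.re - w.re) * Real.log w.re ≤ (y + h) * (2 * Real.pi) := h4
        _ ≤ (s1 + 1) * L * (2 * Real.pi) := mul_le_mul_of_nonneg_right hyh (by positivity)
        _ = X * L := by rw [hXdef]; ring
        _ ≤ X * Real.log w.re := mul_le_mul_of_nonneg_left h2 hX.le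
    exact le_of_mul_le_mul_right h7 h5
  -- two evenly spaced zeros in a window
  have hA0 : ∀ w z z' : ℂ, T < w.re → w.re ≤ 2 * T → iteratedDeriv k (FT Ph) z = 0 →
      iteratedDeriv k (FT Ph) z' = 0 → Ev (1 / 100) k z → Wi y h w z → Wi y h w z' →
      ¬ z.re < z'.re := by
    intro w z z' hw hw2 hz hz' hE hW hW' hlt
    obtain ⟨a1, a2, a3, a4⟩ := hwin w z hw hW
    obtain ⟨b1, b2, b3, b4⟩ := hwin w z' hw hW'
    have h1 := ev_far hE (by linarith) hz hz' hlt
    have h2 := hlw w hw
    have h3 : Real.log z.re ≤ 3 / 2 * L := by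
      refine le_trans (Real.log_le_log (by linarith) ?_) hlog3
      linarith
    have h4 : (z'.re - z.re) * Real.log z.re ≤ (z'.re - z.re) * (3 / 2 * L) :=
      mul_le_mul_of_nonneg_left h3 (by linarith)
    have h5 : (z'.re - z.re) * L ≤ (z'.re - z.re) * Real.log w.re :=
      mul_le_mul_of_nonneg_left h2 (by linarith)
    have h6 : (z'.re - z.re) * Real.log w.re ≤ h * (2 * Real.pi) := by linarith
    have h7 : h * (2 * Real.pi) ≤ 1 / 2 * (2 * Real.pi) :=
      mul_le_mul_of_nonneg_right hh1 (by positivity)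
    nlinarith
  have hB0 : ∀ z w w' : ℂ, T < w.re → w.re ≤ 2 * T → T < w'.re →
      iteratedDeriv k (FT Ph) w = 0 → iteratedDeriv k (FT Ph) w' = 0 → Ev (1 / 100) k w →
      Wi y h w z → Wi y h w' z → ¬ w.re < w'.re := by
    intro z w w' hw hw2 hw' hz hz' hE hW hW' hlt
    obtain ⟨a1, a2, a3, a4⟩ := hwin w z hw hW
    obtain ⟨b1, b2, b3, b4⟩ := hwin w' z hw' hW'
    have h1 := ev_far hE (by linarith) hz hz' hlt
    have hw0 : 0 < w.re := by linarith
    have h2 : Real.log w'.re - Real.log w.re ≤ X / T := by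
      rw [← Real.log_div (by linarith) (by linarith)]
      have h3 : Real.log (w'.re / w.re) ≤ w'.re / w.re - 1 :=
        Real.log_le_sub_one_of_pos (by apply div_pos <;> linarith)
      have h4 : w'.re / w.re - 1 = (w'.re - w.re) / w.re := by field_simp
      have h5 : (w'.re - w.re) / w.re ≤ X / T :=
        div_le_div₀ hX.le (by linarith) (by linarith) hw.le
      linarith
    have h3 : (z.re - w'.re) * (Real.log w'.re - Real.log w.re) ≤ X * (X / T) :=
      mul_le_mul b4 h2 (by
        have := Real.log_le_log hw0 hlt.le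
        linarith) hX.le
    have h4 : X * (X / T) ≤ 1 / 2 := by
      rw [← mul_div_assoc, div_le_iff₀ (by linarith)]
      nlinarith
    have h5 : (w'.re - w.re) * Real.log w.re = (z.re - w.re) * Real.log w.re -
        (z.re - w'.re) * Real.log w'.re +
        (z.re - w'.re) * (Real.log w'.re - Real.log w.re) := by ring
    have h7 : h * (2 * Real.pi) ≤ 1 / 2 * (2 * Real.pi) :=
      mul_le_mul_of_nonneg_right hh1 (by positivity)
    linarith
  have hcomb := comb (ZD k (fun _ => True) T) (ZA_fin k (4 * T)).toFinset (ordk k)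
    (Ev (1 / 100) k) (PRR y h k) (Wi y h) (2 * CU * L) (q * N) (q * N + q * N2)
    (ordk_nonneg k)
    (fun w hw hE => ordk_simple ((mem_ZD (by linarith)).1 hw).1 hE.2.1)
    (fun z hz hE => ordk_simple (memS.1 hz).1 hE.2.1)
    (fun z hz => ordk_one k (memS.1 hz).1)
    (by
      intro w hw _ z hz z' hz' hE hE' hW hW'
      obtain ⟨_, w1, w2, _⟩ := (mem_ZD (by linarith)).1 hw
      have g1 := hA0 w z z' w1 w2 (memS.1 hz).1 (memS.1 hz').1 hE hW hW'
      have g2 := hA0 w z' z w1 w2 (memS.1 hz').1 (memS.1 hz).1 hE' hW' hW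
      exact Complex.ext (by linarith) (by rw [hE.1, hE'.1]))
    (by
      intro z _ w hw w' hw' hE hE' hW hW'
      obtain ⟨w0, w1, w2, _⟩ := (mem_ZD (by linarith)).1 hw
      obtain ⟨v0, v1, v2, _⟩ := (mem_ZD (by linarith)).1 hw'
      have g1 := hB0 z w w' w1 w2 v1 w0 v0 hE hW hW'
      have g2 := hB0 z w' w v1 v2 w1 v0 w0 hE' hW' hW
      exact Complex.ext (by linarith) (by rw [hE.1, hE'.1]))
    (by
      rintro w hw _ ⟨_, g, hg, hW⟩
      obtain ⟨_, w1, w2, _⟩ := (mem_ZD (by linarith)).1 hw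
      obtain ⟨_, _, g3, g4⟩ := hwin w g w1 hW
      exact ⟨(g : ℂ), memS.2 ⟨hg, by linarith, by linarith⟩, hW⟩)
    (by
      intro w hw hE z hz hE' hW
      refine ⟨hE.1, z.re, ?_, ?_⟩
      · rw [real_eq hE'.1]
        exact (memS.1 hz).1
      · rw [real_eq hE'.1]
        exact hW)
    (by
      intro w hw
      obtain ⟨_, w1, w2, _⟩ := (mem_ZD (by linarith)).1 hw
      have g1 := hlw w w1
      have g2 : 0 < Real.log w.re := by linarith
      obtain ⟨t, ht⟩ : ∃ t : ℝ, t = w.re + y * (2 * Real.pi) / Real.log w.re := ⟨_, rfl⟩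
      have g3 : 0 ≤ y * (2 * Real.pi) / Real.log w.re := by positivity
      have g4 : y * (2 * Real.pi) / Real.log w.re ≤ X := by
        rw [div_le_iff₀ g2]
        calc y * (2 * Real.pi) ≤ (y + h) * (2 * Real.pi) :=
              mul_le_mul_of_nonneg_right (by linarith) (by positivity)
          _ ≤ (s1 + 1) * L * (2 * Real.pi) := mul_le_mul_of_nonneg_right hyh (by positivity)
          _ = X * L := by rw [hXdef]; ring
          _ ≤ X * Real.log w.re := mul_le_mul_of_nonneg_left g1 hX.le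
      refine (hU' t (by linarith) _ ?_).trans ?_
      · intro z hz
        rw [Finset.mem_filter] at hz
        obtain ⟨z1, z2, z3, z4⟩ := hwin w z w1 hz.2
        refine ⟨(memS.1 hz.1).1, ?_⟩
        have a3 := strip_im_one k z (memS.1 hz.1).1 (by linarith)
        have a4 := Complex.norm_le_abs_re_add_abs_im (z - (t : ℂ))
        simp only [Complex.sub_re, Complex.sub_im, Complex.ofReal_re, Complex.ofReal_im,
          sub_zero] at a4
        have a5 : t ≤ z.re := by
          have : y * (2 * Real.pi) / Real.log w.re ≤ z.re - w.re := (div_le_iff₀ g2).2 z1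
          linarith
        have a6 : z.re ≤ t + 1 := by
          have h1 : z.re - w.re ≤ (y + h) * (2 * Real.pi) / Real.log w.re := (le_div_iff₀ g2).2 z2
          have h2 : (y + h) * (2 * Real.pi) / Real.log w.re =
              y * (2 * Real.pi) / Real.log w.re + h * (2 * Real.pi) / Real.log w.re := by ring
          have h3 : h * (2 * Real.pi) / Real.log w.re ≤ 1 := by
            rw [div_le_one g2]
            have h7 : h * (2 * Real.pi) ≤ 1 / 2 * (2 * Real.pi) :=
              mul_le_mul_of_nonneg_right hh1 (by positivity)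
            linarith
          linarith
        have a7 : |z.re - t| ≤ 1 := by
          rw [abs_le]
          constructor <;> linarith
        linarith
      · have h1 : Real.log t ≤ Real.log (3 * T) := Real.log_le_log (by linarith) (by linarith)
        have h2 : Real.log t ≤ 2 * L := by linarith
        calc CU * Real.log t ≤ CU * (2 * L) := mul_le_mul_of_nonneg_left h2 hCU.le
          _ = 2 * CU * L := by ring)
    (by positivity)
    (by
      refine le_trans (le_of_eq ?_) hB1
      apply Finset.sum_congr _ fun _ _ => rfl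
      ext w
      rw [Finset.mem_filter, mem_ZD (by linarith), mem_ZD (by linarith)]
      tauto)
    (by
      have hdisj : Disjoint (ZD k (fun w => ¬ Ev (1 / 100) k w) T)
          (ZD k (fun w => ¬ Ev (1 / 100) k w) (2 * T)) := by
        rw [Finset.disjoint_left]
        intro w h1 h2
        have := ((mem_ZD (by linarith)).1 h1).2.2.1
        have := ((mem_ZD (by linarith)).1 h2).2.1
        linarith
      refine le_trans ?_ (add_le_add hB1 hB2)
      rw [← Finset.sum_union hdisj]
      apply Finset.sum_le_sum_of_subset_of_nonneg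
      · intro z hz
        rw [Finset.mem_filter] at hz
        obtain ⟨hz1, hz2, w, hw, hW⟩ := hz
        obtain ⟨_, w1, w2, _⟩ := (mem_ZD (by linarith)).1 hw
        obtain ⟨_, _, g3, g4⟩ := hwin w z w1 hW
        obtain ⟨s1', s2', s3'⟩ := memS.1 hz1
        rw [Finset.mem_union, mem_ZD (by linarith), mem_ZD (by linarith)]
        rcases le_or_gt z.re (2 * T) with h5 | h5
        · exact Or.inl ⟨s1', by linarith, h5, hz2⟩
        · exact Or.inr ⟨s1', h5, by linarith, hz2⟩
      · exact fun _ _ _ => ordk_nonneg k _)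
  have hpc : ∀ w, pc k T y h w = ∑ z ∈ (ZA_fin k (4 * T)).toFinset.filter (Wi y h w), ordk k z := by
    intro w
    unfold pc
    rw [cfil_eq]
  have hPZ : ZD k (PRR y h k) T = (ZD k (fun _ => True) T).filter (PRR y h k) := by
    ext w
    rw [Finset.mem_filter, mem_ZD (by linarith), mem_ZD (by linarith)]
    tauto
  have hfin : (2 * CU * L + 1) * (q * N) + (q * N + q * N2) ≤ ε * N := by
    have h1 : q * N2 ≤ q * (100 * CU * N) := mul_le_mul_of_nonneg_left hN2N hq0
    have h2 : q ≤ CD' * (1 / L ^ 2) := by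
      rw [hq]
      exact mul_le_mul_of_nonneg_left hexp hCD0
    have h3 : (2 * CU + 2) * CD' * (1 + 100 * CU) ≤ L * ε := (div_le_iff₀ hε).1 hLε
    have h4 : (2 * CU * L + 1) * (q * N) + (q * N + q * N2) ≤
        (2 * CU * L + 2) * (1 + 100 * CU) * (q * N) := by
      have h5 : 0 ≤ q * N := mul_nonneg hq0 hNpos
      have h6 : (2 * CU * L + 1) * (q * N) + (q * N + q * (100 * CU * N)) ≤
          (2 * CU * L + 2) * (1 + 100 * CU) * (q * N) := by
        have h7 : 0 ≤ (2 * CU * L * (100 * CU) + 100 * CU) * (q * N) := by positivity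
        nlinarith
      linarith
    have h5 : (2 * CU * L + 2) * (1 + 100 * CU) * q ≤ ε := by
      have h6 : (2 * CU * L + 2) ≤ (2 * CU + 2) * L := by nlinarith
      calc (2 * CU * L + 2) * (1 + 100 * CU) * q
          ≤ (2 * CU + 2) * L * (1 + 100 * CU) * (CD' * (1 / L ^ 2)) := by
            apply mul_le_mul _ h2 hq0 (by positivity)
            exact mul_le_mul_of_nonneg_right h6 (by positivity)
        _ = (2 * CU + 2) * CD' * (1 + 100 * CU) / L := by field_simp
        _ ≤ ε := by
            rw [div_le_iff₀ hL0]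
            linarith
    calc _ ≤ (2 * CU * L + 2) * (1 + 100 * CU) * (q * N) := h4
      _ = (2 * CU * L + 2) * (1 + 100 * CU) * q * N := by ring
      _ ≤ ε * N := mul_le_mul_of_nonneg_right h5 hNpos
  rw [hPZ, ← hN]
  simp only [hpc]
  refine le_trans (le_trans (le_of_eq ?_) hcomb) hfin
  rfl

end Pool.Agent.H670.GP
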